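import Mathlib
import Pool.Agent.R500.MG.Dim
import Pool.Agent.H447R2.ML.R5
import Pool.Agent.R331.MT.Three

set_option autoImplicit false

/-!
# The exceptional set of the Lenstra-Pomerance-Wagstaff law has full Hausdorff dimension

For real `β > 0` and a prime `p` let `W β p` be the `p`-rough part (the product, with multiplicity,
of the prime factors larger than `p`) of the largest integer below `β * 2 ^ p`, and let `M β n` be
the number of primes `p ≤ n` with `W β p` prime.  For `β = 1` the number `W β p` is the Mersenne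
number `2 ^ p - 1`.  For Lebesgue almost every `β` the law `M β n ~ (e ^ γ / log 2) log n` is known.

We prove that in every interval the set of the amplitudes `β` with `limsup M β n / log n = ∞` has
Hausdorff dimension `1`; more precisely, the set of the `β` for which
`limsup M β n / π(n) ≥ 1 - t` (a positive proportion of all primes are exponents) has Hausdorff
dimension at least `t`, for `0 < t < 1`.
-/

namespace Pool.Agent.Results.MP_9b2bac_nt.ExceptionalDimension

open Filter Topology Set MeasureTheory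
open scoped ENNReal
open Pool.Agent.R500.MG (W M M_one roughPart G ae_bad point pi_gt_log)

/-- almost every amplitude has infinitely many exponents -/
lemma ae_inf : ∀ᵐ β : ℝ, 0 < β → ∃ᶠ p : ℕ in atTop, p.Prime ∧ (W β p).Prime := by
  have key := (Pool.Agent.H447R2.ML.shift_ceil (α := 2) (κ := 1) (C := 1) (g := fun _ => 0)
    (by norm_num) (by norm_num) (by norm_num) (by intro p; simp)).2
  have hM : ∀ (x : ℝ) (n : ℕ),
      Pool.Agent.H447R2.ML.cc (fun p x => x * 2 ^ p + 0) x n = M x n := by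
    intro x n
    unfold Pool.Agent.H447R2.ML.cc Pool.Agent.R500.MG.M Pool.Agent.R500.MG.W
    simp only [add_zero]
    rfl
  simp only [hM] at key
  filter_upwards [key] with β hβ h0
  obtain ⟨h1, _⟩ := hβ h0
  have hκ : 0 < Real.exp Real.eulerMascheroniConstant / Real.log 2 :=
    div_pos (Real.exp_pos _) (Real.log_pos (by norm_num))
  have h2 := h1 (Real.exp Real.eulerMascheroniConstant / Real.log 2 / 2) (by linarith)
  by_contra hcon
  rw [not_frequently] at hcon
  obtain ⟨P, hP⟩ := eventually_atTop.1 hcon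
  have h3 : ∀ n, M β n ≤ P := by
    intro n
    unfold Pool.Agent.R500.MG.M
    have hsub : ((Finset.range (n + 1)).filter (fun p => p.Prime ∧ (W β p).Prime)) ⊆
        Finset.range P := by
      intro p hp
      rw [Finset.mem_filter] at hp
      rw [Finset.mem_range]
      by_contra hlt
      exact hP p (by omega) hp.2
    have := Finset.card_le_card hsub
    rwa [Finset.card_range] at this
  have h4 : ∀ᶠ n : ℕ in atTop,
      (P : ℝ) ≤ Real.exp Real.eulerMascheroniConstant / Real.log 2 / 2 * Real.log n :=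
    ((Real.tendsto_log_atTop.comp tendsto_natCast_atTop_atTop).const_mul_atTop
      (by positivity)).eventually_ge_atTop _
  obtain ⟨n, hn1, hn2⟩ := (h2.and_eventually h4).exists
  have h5 : (M β n : ℝ) ≤ P := by exact_mod_cast h3 n
  linarith

/-- almost every amplitude has infinitely many good levels -/
lemma ae_good (K : ℕ) : ∀ᵐ β : ℝ, 0 < β → ∃ᶠ k : ℕ in atTop, G K k (⌈β * 2 ^ k⌉₊ - 1) := by
  filter_upwards [ae_inf, ae_bad K] with β h1 h2 h0
  refine ((h1 h0).and_eventually (h2 h0)).mono fun k ⟨⟨a1, a2⟩, a3⟩ => ⟨a1, a2, ?_⟩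
  by_contra hcon
  exact a3 ⟨a2, by
    push Not at hcon
    exact hcon⟩

/-- the property of the limit superior -/
def Pt (t β : ℝ) : Prop :=
  ∀ ε : ℝ, 0 < ε → ∃ᶠ n : ℕ in atTop, (1 - t - ε) * Nat.primeCounting n < M β n

lemma affine_ae {P : ℝ → Prop} (h : ∀ᵐ β : ℝ, P β) (u : ℝ) {L : ℝ} (hL : 0 < L) :
    ∀ᵐ x : ℝ, P (u + L * x) := by
  rw [ae_iff] at h ⊢
  have e : {x : ℝ | ¬ P (u + L * x)} = (fun x => L * x) ⁻¹' ((fun x => u + x) ⁻¹' {β | ¬ P β}) := rfl
  rw [e, Real.volume_preimage_mul_left hL.ne', measure_preimage_add, h, mul_zero]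

/-- the dimension in a closed interval -/
lemma dim_Icc {u L s t : ℝ} (hu : 0 < u) (hL : 0 < L) (hs : 0 < s) (hst : s < t) (ht : t < 1) :
    ENNReal.ofReal s ≤ dimH {β : ℝ | β ∈ Icc u (u + L) ∧ Pt t β} := by
  have ht0 : 0 < t := by linarith
  have hti : 1 < 1 / t := by rw [lt_div_iff₀ ht0]; linarith
  obtain ⟨K, hK⟩ := exists_nat_gt (1 / t)
  set ρ : ℕ → ℝ := fun k => 2 / (L * 2 ^ k) with hρ
  have hρ0 : ∀ k, 0 < ρ k := fun k => by rw [hρ]; positivity
  have h2t : Tendsto (fun k : ℕ => (2 : ℝ) ^ k) atTop atTop :=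
    tendsto_pow_atTop_atTop_of_one_lt (by norm_num)
  have hρt : Tendsto ρ atTop (𝓝 0) := (h2t.const_mul_atTop hL).const_div_atTop _
  set C : ℕ → Set ℝ := fun k => {c | ∃ N : ℕ, G K k N ∧
    u + L * c = N / 2 ^ k + L * (ρ k) ^ (1 / t)} with hC
  set E' : Set ℝ := {x | x ∈ Icc (0 : ℝ) 1 ∧ Pt t (u + L * x)} with hE'
  have hfull : ∀ᵐ x ∂(volume : Measure ℝ), x ∈ Ioo (0 : ℝ) 1 → ∃ᶠ k in atTop, ∃ c ∈ C k, |x - c| < ρ k := by
    filter_upwards [affine_ae (ae_good K) u hL] with x hx hx01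
    have hpos : 0 < u + L * x := by
      have := mul_pos hL hx01.1
      linarith
    refine ((hx hpos).and_eventually (hρt.eventually_lt_const zero_lt_one)).mono fun k ⟨hk1, hk2⟩ => ?_
    set β := u + L * x with hβ
    set N := ⌈β * 2 ^ k⌉₊ - 1 with hN
    have h2k : (0 : ℝ) < 2 ^ k := by positivity
    have hc : 0 < ⌈β * 2 ^ k⌉₊ := Nat.ceil_pos.2 (by positivity)
    have hN1 : N + 1 = ⌈β * 2 ^ k⌉₊ := by omega
    have hlo : (N : ℝ) < β * 2 ^ k := by
      have : N < ⌈β * 2 ^ k⌉₊ := by omega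
      exact Nat.lt_ceil.1 this
    have hhi : β * 2 ^ k ≤ N + 1 := by
      have := Nat.le_ceil (β * 2 ^ k)
      rw [← hN1] at this
      exact_mod_cast this
    have hr0 : 0 < (ρ k) ^ (1 / t) := Real.rpow_pos_of_pos (hρ0 k) _
    have hr1 : (ρ k) ^ (1 / t) < ρ k := by
      calc (ρ k) ^ (1 / t) < (ρ k) ^ (1 : ℝ) :=
            Real.rpow_lt_rpow_of_exponent_gt (hρ0 k) hk2 hti
        _ = ρ k := Real.rpow_one _
    refine ⟨(N / 2 ^ k + L * (ρ k) ^ (1 / t) - u) / L, ⟨N, hk1, by field_simp; ring⟩, ?_⟩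
    have e1 : x - (N / 2 ^ k + L * (ρ k) ^ (1 / t) - u) / L =
        (β - N / 2 ^ k) / L - (ρ k) ^ (1 / t) := by
      rw [hβ]; field_simp; ring
    rw [e1]
    have h3 : 0 < β - N / 2 ^ k := by
      rw [sub_pos, div_lt_iff₀ h2k]; exact hlo
    have h4 : β - N / 2 ^ k ≤ 1 / 2 ^ k := by
      rw [sub_le_iff_le_add, ← add_div, le_div_iff₀ h2k]
      linarith
    have h5 : (β - N / 2 ^ k) / L < ρ k := by
      rw [div_lt_iff₀ hL]
      have e2 : ρ k * L = 2 / 2 ^ k := by rw [hρ]; field_simp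
      rw [e2]
      have : (1 : ℝ) / 2 ^ k < 2 / 2 ^ k := div_lt_div_of_pos_right (by norm_num) h2k
      linarith
    have h6 : 0 < (β - N / 2 ^ k) / L := div_pos h3 hL
    rw [abs_lt]
    constructor <;> linarith
  have hsub : ∀ x, x ∈ Icc (0 : ℝ) 1 → (∃ᶠ k in atTop, ∃ c ∈ C k, |x - c| < ρ k ^ (1 / t)) → x ∈ E' := by
    intro x hx hfr
    refine ⟨hx, fun ε hε => point (K := K) (L := L) ht0 hL hK (hfr.mono fun k hk => ?_) hε⟩
    obtain ⟨c, ⟨N, hG, hc⟩, hxc⟩ := hk
    rw [abs_lt] at hxc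
    refine ⟨N, hG, ?_, ?_⟩
    · have := mul_lt_mul_of_pos_left hxc.1 hL
      nlinarith
    · have := mul_lt_mul_of_pos_left hxc.2 hL
      have e : (2 : ℝ) / (L * 2 ^ k) = ρ k := rfl
      rw [e]
      nlinarith
  -- positive Hausdorff measure
  have key : ENNReal.ofReal (1 / 20) ≤ Measure.hausdorffMeasure s E' := by
    rw [Measure.hausdorffMeasure_apply]
    refine le_iSup₂_of_le 1 one_pos ?_
    refine le_iInf fun A => le_iInf fun hcov => le_iInf fun _ => ?_
    refine (Pool.Agent.R331.MT.content hs hst ht.le C ρ hρ0 hρt hfull A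
      (fun x hx => hcov (hsub x hx.1 hx.2))).trans ?_
    refine ENNReal.tsum_le_tsum fun n => ?_
    by_cases hne : (A n).Nonempty
    · rw [iSup_pos hne]
    · have : A n = ∅ := not_nonempty_iff_eq_empty.mp hne
      rw [iSup_neg hne]
      simp [this, hs]
  have h1 : ENNReal.ofReal s ≤ dimH E' := by
    have h3 := le_dimH_of_hausdorffMeasure_ne_zero (s := E') (d := s.toNNReal) (by
      rw [Real.coe_toNNReal _ hs.le]
      intro h0
      rw [h0] at key
      simp at key)
    exact h3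
  -- the affine map
  have hlip : LipschitzWith (Real.toNNReal (1 / L)) (fun β : ℝ => (β - u) / L) := by
    refine LipschitzWith.of_dist_le_mul fun a b => ?_
    rw [Real.coe_toNNReal _ (by positivity), Real.dist_eq, Real.dist_eq, ← sub_div, abs_div,
      abs_of_pos hL]
    apply le_of_eq
    rw [show a - u - (b - u) = a - b by ring]
    ring
  have h2 : E' ⊆ (fun β : ℝ => (β - u) / L) '' {β : ℝ | β ∈ Icc u (u + L) ∧ Pt t β} := by
    intro x hx
    refine ⟨u + L * x, ⟨⟨?_, ?_⟩, hx.2⟩, by simp only; field_simp; ring⟩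
    · have := mul_nonneg hL.le hx.1.1
      linarith
    · have := mul_le_mul_of_nonneg_left hx.1.2 hL.le
      linarith
  exact h1.trans ((dimH_mono h2).trans (hlip.dimH_image_le _))

lemma dim_Ioo {u v t : ℝ} (hu : 0 ≤ u) (huv : u < v) (ht0 : 0 < t) (ht : t < 1) :
    ENNReal.ofReal t ≤ dimH {β : ℝ | β ∈ Ioo u v ∧ Pt t β} := by
  refine le_of_forall_lt fun b hb => ?_
  obtain ⟨c, hc1, hc2⟩ := ENNReal.lt_iff_exists_nnreal_btwn.mp hb
  have hc3 : (c : ℝ) < t := by
    rw [← ENNReal.ofReal_coe_nnreal] at hc2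
    exact (ENNReal.ofReal_lt_ofReal_iff_of_nonneg c.2).mp hc2
  set s : ℝ := max c (t / 2) with hs
  have hs0 : 0 < s := lt_of_lt_of_le (by positivity) (le_max_right _ _)
  have hs1 : s < t := max_lt hc3 (by linarith)
  refine lt_of_lt_of_le hc1 ?_
  have h1 : (c : ℝ≥0∞) ≤ ENNReal.ofReal s := by
    rw [← ENNReal.ofReal_coe_nnreal]
    exact ENNReal.ofReal_le_ofReal (le_max_left _ _)
  refine h1.trans ((dim_Icc (u := u + (v - u) / 3) (L := (v - u) / 3) (by linarith) (by linarith)
    hs0 hs1 ht).trans (dimH_mono fun β hβ => ⟨⟨?_, ?_⟩, hβ.2⟩))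
  · linarith [hβ.1.1]
  · linarith [hβ.1.2]

/-- **The exceptional set of the law has full Hausdorff dimension.**  The counting function at
`β = 1` is that of the Mersenne prime exponents; the set of the amplitudes in a given interval with
`limsup M β n / π(n) ≥ 1 - t` has Hausdorff dimension at least `t`, and the set of those with
`limsup M β n / log n = ∞` has Hausdorff dimension `1`. -/
theorem result :
    (∀ n : ℕ, M 1 n = ((Finset.range (n + 1)).filter (fun p => p.Prime ∧ (2 ^ p - 1).Prime)).card) ∧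
    (∀ u v t : ℝ, 0 ≤ u → u < v → 0 < t → t < 1 →
      ENNReal.ofReal t ≤ dimH {β : ℝ | β ∈ Set.Ioo u v ∧ ∀ ε : ℝ, 0 < ε →
        ∃ᶠ n : ℕ in atTop, (1 - t - ε) * Nat.primeCounting n < M β n}) ∧
    (∀ u v : ℝ, 0 ≤ u → u < v →
      dimH {β : ℝ | β ∈ Set.Ioo u v ∧ ∀ C : ℝ, ∃ᶠ n : ℕ in atTop, C * Real.log n < M β n} = 1) := by
  refine ⟨M_one, fun u v t hu huv ht0 ht => dim_Ioo hu huv ht0 ht, fun u v hu huv => ?_⟩
  refine le_antisymm ?_ ?_
  · calc _ ≤ dimH (Set.univ : Set ℝ) := dimH_mono (Set.subset_univ _)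
      _ = 1 := by
        have := Real.dimH_univ
        exact this
  · refine le_of_forall_lt fun b hb => ?_
    obtain ⟨c, hc1, hc2⟩ := ENNReal.lt_iff_exists_nnreal_btwn.mp hb
    have hc3 : (c : ℝ) < 1 := by exact_mod_cast hc2
    set t : ℝ := ((c : ℝ) + 1) / 2 with ht
    have hc0 : (0 : ℝ) ≤ c := c.2
    have ht0 : 0 < t := by rw [ht]; linarith
    have ht1 : t < 1 := by rw [ht]; linarith
    have hct : (c : ℝ) ≤ t := by rw [ht]; linarith
    refine lt_of_lt_of_le hc1 ?_
    have h1 : (c : ℝ≥0∞) ≤ ENNReal.ofReal t := by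
      rw [← ENNReal.ofReal_coe_nnreal]
      exact ENNReal.ofReal_le_ofReal hct
    refine h1.trans ((dim_Ioo hu huv ht0 ht1).trans (dimH_mono fun β hβ => ⟨hβ.1, fun C => ?_⟩))
    have h2 := hβ.2 ((1 - t) / 2) (by linarith)
    refine (h2.and_eventually (pi_gt_log (2 * C / (1 - t)))).mono fun n ⟨a1, a2⟩ => ?_
    have h3 : 0 < (1 - t) / 2 := by linarith
    have h4 := mul_lt_mul_of_pos_left a2 h3
    have h5 : (1 - t) / 2 * (2 * C / (1 - t) * Real.log n) = C * Real.log n := by
      have : 1 - t ≠ 0 := by linarith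
      field_simp
    have h6 : 1 - t - (1 - t) / 2 = (1 - t) / 2 := by ring
    rw [h6] at a1
    linarith

end Pool.Agent.Results.MP_9b2bac_nt.ExceptionalDimension
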