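import Mathlib
import Pool.Agent.R500.MG.Dense4

set_option autoImplicit false

/-!
# Amplitudes whose exponents have positive lower density among the primes

For real `β > 0` and a prime `p` let `W β p` be the `p`-rough part (the product, with multiplicity,
of the prime factors larger than `p`) of the largest integer below `β * 2 ^ p`, and let `M β n` be
the number of primes `p ≤ n` for which `W β p` is prime.  For `β = 1` this is the number of primes
`p ≤ n` for which `2 ^ p - 1` is prime.  For Lebesgue almost every `β` it is known that `M β n` is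
asymptotic to `(e ^ γ / log 2) log n`.  We prove that the set of the `β` for which, on the
contrary, `M β n` is at least a positive proportion of the number of all primes up to `n`, for all
large `n`, has Hausdorff dimension one in every open interval.
-/

namespace Pool.Agent.Results.MP_9b2bac_nt.PositiveDensity

open Filter Topology Set
open Pool.Agent.R500.MG (W M M_one dim_density)

/-- **The amplitudes whose exponents have positive lower density among the primes have full
Hausdorff dimension in every interval.** -/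
theorem result :
    (∀ n : ℕ, M 1 n =
      ((Finset.range (n + 1)).filter (fun p => p.Prime ∧ (2 ^ p - 1).Prime)).card) ∧
    (∀ s : ℝ, s < 1 → ∃ c : ℝ, 0 < c ∧ ∀ u v : ℝ, 0 ≤ u → u < v →
      ENNReal.ofReal s ≤ dimH {β : ℝ | β ∈ Set.Ioo u v ∧
        ∀ᶠ n : ℕ in atTop, c * Nat.primeCounting n ≤ M β n}) ∧
    (∀ u v : ℝ, 0 ≤ u → u < v →
      dimH {β : ℝ | β ∈ Set.Ioo u v ∧
        ∃ c : ℝ, 0 < c ∧ ∀ᶠ n : ℕ in atTop, c * Nat.primeCounting n ≤ M β n} = 1) := by
  have h2 : ∀ s : ℝ, s < 1 → ∃ c : ℝ, 0 < c ∧ ∀ u v : ℝ, 0 ≤ u → u < v →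
      ENNReal.ofReal s ≤ dimH {β : ℝ | β ∈ Set.Ioo u v ∧
        ∀ᶠ n : ℕ in atTop, c * Nat.primeCounting n ≤ M β n} := by
    intro s hs
    rcases le_or_gt s 0 with h0 | h0
    · refine ⟨1, one_pos, fun u v _ _ => ?_⟩
      rw [ENNReal.ofReal_of_nonpos h0]
      exact zero_le
    · exact dim_density h0 hs
  refine ⟨M_one, h2, fun u v hu huv => ?_⟩
  refine le_antisymm ?_ ?_
  · have h1 : dimH (Set.univ : Set ℝ) = 1 := by
      rw [Real.dimH_univ]
    exact (dimH_mono (Set.subset_univ _)).trans h1.le
  · refine le_of_forall_lt fun a ha => ?_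
    obtain ⟨b, hb1, hb2⟩ := exists_between ha
    have hbt : b ≠ ⊤ := ne_top_of_lt hb2
    have hb3 : b.toReal < 1 := by
      have := (ENNReal.toReal_lt_toReal hbt ENNReal.one_ne_top).2 hb2
      simpa using this
    obtain ⟨c, hc, h3⟩ := h2 b.toReal hb3
    have h4 := h3 u v hu huv
    rw [ENNReal.ofReal_toReal hbt] at h4
    refine lt_of_lt_of_le hb1 (h4.trans (dimH_mono ?_))
    rintro β ⟨hβ1, hβ2⟩
    exact ⟨hβ1, c, hc, hβ2⟩

end Pool.Agent.Results.MP_9b2bac_nt.PositiveDensity
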